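import Pool.Agent.helper23.DRS.AN2

/-! Extended-valued version of module AN2 (MP_675b5c_an): `g` may take the value `+∞`. -/

namespace Pool.Agent.helper73.DRS

open scoped RealInnerProductSpace

/-- `x` minimises `h + ‖· - z‖² / (2γ)` over the set `G`. -/
def IsProxOn {n : ℕ} (G : Set (EuclideanSpace ℝ (Fin n))) (γ : ℝ)
    (h : EuclideanSpace ℝ (Fin n) → ℝ) (z x : EuclideanSpace ℝ (Fin n)) : Prop :=
  x ∈ G ∧ ∀ y ∈ G, h x + 1 / (2 * γ) * ‖x - z‖ ^ 2 ≤ h y + 1 / (2 * γ) * ‖y - z‖ ^ 2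

/-- `u` is a subgradient at `x ∈ G` of the function `h` on `G` -/
def IsSubgradOn {n : ℕ} (G : Set (EuclideanSpace ℝ (Fin n))) (h : EuclideanSpace ℝ (Fin n) → ℝ)
    (x u : EuclideanSpace ℝ (Fin n)) : Prop :=
  ∀ y ∈ G, h x + ⟪u, y - x⟫ ≤ h y

theorem IsProxOn.isSubgradOn {n : ℕ} {γ : ℝ} (hγ : 0 < γ)
    {G : Set (EuclideanSpace ℝ (Fin n))} {h : EuclideanSpace ℝ (Fin n) → ℝ}
    (hh : ConvexOn ℝ G h) {z x : EuclideanSpace ℝ (Fin n)} (hx : IsProxOn G γ h z x) :
    IsSubgradOn G h x ((1 / γ) • (z - x)) := by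
  intro y hy
  rw [real_inner_smul_left]
  -- the inequality with an error `t * K`
  have key : ∀ t : ℝ, 0 < t → t ≤ 1 →
      h x + 1 / γ * ⟪z - x, y - x⟫ ≤ h y + t * (1 / (2 * γ) * ‖y - x‖ ^ 2) := by
    intro t ht ht1
    have e : (1 - t) • x + t • y = x + t • (y - x) := by
      rw [sub_smul, one_smul, smul_sub]
      abel
    have h1 := hx.2 (x + t • (y - x)) (by
      rw [← e]
      exact hh.1 hx.1 hy (by linarith) ht.le (by ring))
    have h2 : h (x + t • (y - x)) ≤ (1 - t) * h x + t * h y := by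
      have := hh.2 hx.1 hy (by linarith : (0 : ℝ) ≤ 1 - t) ht.le
        (by ring)
      rw [e] at this
      simpa [smul_eq_mul] using this
    have h3 : ‖x + t • (y - x) - z‖ ^ 2 =
        ‖x - z‖ ^ 2 + 2 * t * ⟪x - z, y - x⟫ + t ^ 2 * ‖y - x‖ ^ 2 := by
      have e : x + t • (y - x) - z = (x - z) + t • (y - x) := by abel
      rw [e, norm_add_sq_real, real_inner_smul_right, norm_smul, mul_pow, Real.norm_eq_abs,
        sq_abs]
      ring
    rw [h3] at h1
    have h4 : ⟪x - z, y - x⟫ = - ⟪z - x, y - x⟫ := by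
      rw [← neg_sub z x, inner_neg_left]
    rw [h4] at h1
    have h5 : t * (h x + 1 / γ * ⟪z - x, y - x⟫) ≤
        t * (h y + t * (1 / (2 * γ) * ‖y - x‖ ^ 2)) := by
      have e1 : 1 / (2 * γ) * (‖x - z‖ ^ 2 + 2 * t * -⟪z - x, y - x⟫ + t ^ 2 * ‖y - x‖ ^ 2) =
          1 / (2 * γ) * ‖x - z‖ ^ 2 - t * (1 / γ * ⟪z - x, y - x⟫) +
            t * (t * (1 / (2 * γ) * ‖y - x‖ ^ 2)) := by
        field_simp
        ring
      rw [e1] at h1
      nlinarith
    exact le_of_mul_le_mul_left h5 ht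
  by_contra hcon
  push Not at hcon
  set K := 1 / (2 * γ) * ‖y - x‖ ^ 2 with hK
  have hK0 : 0 ≤ K := by positivity
  set δ := h x + 1 / γ * ⟪z - x, y - x⟫ - h y with hδ
  have hδ0 : 0 < δ := by linarith
  have ht := key (min 1 (δ / (2 * (K + 1)))) (lt_min one_pos (by positivity)) (min_le_left _ _)
  have h6 : min 1 (δ / (2 * (K + 1))) * K ≤ δ / 2 := by
    calc min 1 (δ / (2 * (K + 1))) * K ≤ δ / (2 * (K + 1)) * K :=
          mul_le_mul_of_nonneg_right (min_le_right _ _) hK0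
      _ ≤ δ / (2 * (K + 1)) * (K + 1) := by
          apply mul_le_mul_of_nonneg_left (by linarith)
          positivity
      _ = δ / 2 := by
          field_simp
  linarith

/-- scaled subgradient inequality -/
lemma IsSubgradOn.scaled {n : ℕ} {γ : ℝ} (hγ : 0 < γ) {G : Set (EuclideanSpace ℝ (Fin n))}
    {g : EuclideanSpace ℝ (Fin n) → ℝ}
    {x u : EuclideanSpace ℝ (Fin n)} (hu : IsSubgradOn G g x ((1 / γ) • u))
    {y : EuclideanSpace ℝ (Fin n)} (hy : y ∈ G) : γ * g x + ⟪u, y - x⟫ ≤ γ * g y := by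
  have h := hu y hy
  rw [real_inner_smul_left] at h
  have h2 := mul_le_mul_of_nonneg_left h hγ.le
  have e : γ * (g x + 1 / γ * ⟪u, y - x⟫) = γ * g x + ⟪u, y - x⟫ := by
    field_simp
  rw [e] at h2
  exact h2

/-- from a certificate to the statement -/
theorem drs_of_cert_on {n N : ℕ} (hN : 1 ≤ N) {f g : EuclideanSpace ℝ (Fin n) → ℝ}
    {G : Set (EuclideanSpace ℝ (Fin n))}
    (hf : ConvexOn ℝ Set.univ f) (hg : ConvexOn ℝ G g) {L γ lam iLs iLt : ℝ} (hL : 0 < L)
    (hs : IsSmooth L f) (hγ : 0 < γ) (hlam : 0 < lam)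
    (hLs : iLs ≤ 1 / (γ * L)) (hLt : iLt ≤ 1 / (γ * L))
    (C : Nonempty (Cert (N - 1) lam iLs iLt))
    (w x y : ℕ → EuclideanSpace ℝ (Fin n))
    (hx : ∀ k, 1 ≤ k → k ≤ N → IsProx γ f (w k) (x k))
    (hy : ∀ k, 1 ≤ k → k ≤ N → IsProxOn G γ g ((2 : ℝ) • x k - w k) (y k))
    (hw : ∀ k, 1 ≤ k → k < N → w (k + 1) = w k + lam • (y k - x k))
    (ws xs ys : EuclideanSpace ℝ (Fin n))
    (hxs : IsProx γ f ws xs) (hys : IsProxOn G γ g ((2 : ℝ) • xs - ws) ys)
    (hws : ws = ws + lam • (ys - xs)) :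
    f (y N) + g (y N) - (f xs + g xs) ≤ ‖w 1 - ws‖ ^ 2 / (4 * γ * ((N - 1 : ℕ) * lam + 1)) := by
  obtain ⟨C⟩ := C
  -- the fixed point
  have hyx : ys = xs := by
    have h1 : lam • (ys - xs) = 0 := by
      have := hws
      rwa [eq_comm, add_eq_left] at this
    have h2 : ys - xs = 0 := by
      rcases smul_eq_zero.mp h1 with h | h
      · exact absurd h hlam.ne'
      · exact h
    exact sub_eq_zero.mp h2
  subst hyx
  -- subgradients
  have gx : ∀ k, 1 ≤ k → k ≤ N → IsSubgrad f (x k) ((1 / γ) • (w k - x k)) :=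
    fun k h1 h2 => (hx k h1 h2).isSubgrad hγ hf
  have gy : ∀ k, 1 ≤ k → k ≤ N → IsSubgradOn G g (y k) ((1 / γ) • ((2 : ℝ) • x k - w k - y k)) :=
    fun k h1 h2 => (hy k h1 h2).isSubgradOn hγ hg
  have hyG : ∀ k, 1 ≤ k → k ≤ N → y k ∈ G := fun k h1 h2 => (hy k h1 h2).1
  have hysG : ys ∈ G := hys.1
  have gs : IsSubgrad f ys ((1 / γ) • (ws - ys)) := hxs.isSubgrad hγ hf
  obtain ⟨v, hv⟩ := exists_isSubgrad hf (y N)
  have hv' : IsSubgrad f (y N) ((1 / γ) • (γ • v)) := by
    rwa [smul_smul, one_div, inv_mul_cancel₀ hγ.ne', one_smul]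
  set W : ℕ → EuclideanSpace ℝ (Fin n) := fun j => w (j + 1) - ws with hW
  set U : ℕ → EuclideanSpace ℝ (Fin n) := fun j => (w (j + 1) - x (j + 1)) - (ws - ys) with hU
  set D : ℕ → EuclideanSpace ℝ (Fin n) := fun j => x (j + 1) - y (j + 1) with hD
  set c : EuclideanSpace ℝ (Fin n) := γ • v - (ws - ys) with hc
  set Y : EuclideanSpace ℝ (Fin n) := y N - ys with hY
  have e1 : ∀ j, W j - U j = x (j + 1) - ys := by
    intro j
    simp only [hW, hU]
    abel
  have e2 : ∀ j, W j - U j - D j = y (j + 1) - ys := by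
    intro j
    rw [e1]
    simp only [hD]
    abel
  have e3 : ∀ j, j < N - 1 → W (j + 1) = W j - lam • D j := by
    intro j hj
    simp only [hW, hD]
    rw [hw (j + 1) (by omega) (by omega), smul_sub, smul_sub]
    abel
  have e4 : ∀ j, j < N - 1 → lam • D j + (U (j + 1) - U j) = x (j + 1) - x (j + 1 + 1) := by
    intro j hj
    simp only [hU, hD]
    rw [hw (j + 1) (by omega) (by omega), smul_sub, smul_sub]
    abel
  have e5 : ∀ j, j < N - 1 → lam • D j + (U (j + 1) - U j) + (D (j + 1) - D j) =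
      y (j + 1) - y (j + 1 + 1) := by
    intro j hj
    rw [e4 j hj]
    simp only [hD]
    abel
  have e6 : ∀ j, D j - U j = ((2 : ℝ) • x (j + 1) - w (j + 1) - y (j + 1)) + (ws - ys) := by
    intro j
    simp only [hD, hU, two_smul]
    abel
  have hN1 : N - 1 + 1 = N := by omega
  have key := C.bound hlam hLs hLt (fun j i => W j i) (fun j i => U j i) (fun j i => D j i)
    (fun i => c i) (fun i => Y i)
    (fun j => γ * (f (x (j + 1)) - f ys) - ⟪ws - ys, x (j + 1) - ys⟫)
    (fun j => γ * (g (y (j + 1)) - g ys) + ⟪ws - ys, y (j + 1) - ys⟫)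
    (γ * (f (y N) - f ys) - ⟪ws - ys, y N - ys⟫)
    (by
      intro k hk i
      have := congrArg (fun z : EuclideanSpace ℝ (Fin n) => z i) (e3 k hk)
      simpa using this)
    (by
      intro i
      have h := e2 (N - 1)
      rw [hN1] at h
      have := congrArg (fun z : EuclideanSpace ℝ (Fin n) => z i) h
      simp only [PiLp.sub_apply] at this
      simp only [hY, PiLp.sub_apply]
      linarith)
    (by
      intro k hk
      have h := hs.interp_scaled hL hγ hf (gx (k + 1) (by omega) (by omega)) gs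
      have a1 : ∑ i, U k i * (W k i - U k i) = ⟪U k, x (k + 1) - ys⟫ := by
        rw [← e1, ← sum_mul_eq]
        rfl
      have a2 : ws - ys - (w (k + 1) - x (k + 1)) = - U k := by
        simp only [hU]
        abel
      have a3 : ⟪w (k + 1) - x (k + 1), ys - x (k + 1)⟫ =
          - ⟪U k, x (k + 1) - ys⟫ - ⟪ws - ys, x (k + 1) - ys⟫ := by
        rw [← neg_sub (x (k + 1)) ys, inner_neg_right]
        have : w (k + 1) - x (k + 1) = U k + (ws - ys) := by
          simp only [hU]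
          abel
        rw [this, inner_add_left]
        ring
      rw [a2, norm_neg, a3] at h
      simp only [a1, sum_sq_eq]
      linarith)
    (by
      intro k hk
      have h := hs.interp_scaled hL hγ hf gs (gx (k + 1) (by omega) (by omega))
      simp only [sum_sq_eq]
      linarith)
    (by
      intro k hk
      have h := hs.interp_scaled hL hγ hf (gx (k + 1 + 1) (by omega) (by omega))
        (gx (k + 1) (by omega) (by omega))
      have a1 : ∑ i, U (k + 1) i * (lam * D k i + (U (k + 1) i - U k i)) =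
          ⟪U (k + 1), x (k + 1) - x (k + 1 + 1)⟫ := by
        rw [← e4 k hk, ← sum_mul_eq]
        rfl
      have a0 : ∑ i, (U (k + 1) i - U k i) ^ 2 = ‖U (k + 1) - U k‖ ^ 2 := by
        rw [← sum_sq_eq]
        rfl
      have a2 : w (k + 1) - x (k + 1) - (w (k + 1 + 1) - x (k + 1 + 1)) =
          - (U (k + 1) - U k) := by
        simp only [hU]
        abel
      have a3 : w (k + 1 + 1) - x (k + 1 + 1) = U (k + 1) + (ws - ys) := by
        simp only [hU]
        abel
      have a4 : ⟪ws - ys, x (k + 1) - ys⟫ = ⟪ws - ys, x (k + 1) - x (k + 1 + 1)⟫ +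
          ⟪ws - ys, x (k + 1 + 1) - ys⟫ := by
        rw [← inner_add_right]
        congr 1
        abel
      rw [a2, norm_neg, a3, inner_add_left] at h
      simp only [a1, a0, a4]
      linarith)
    (by
      intro k hk
      have h := hs.interp_scaled hL hγ hf (gx (k + 1) (by omega) (by omega))
        (gx (k + 1 + 1) (by omega) (by omega))
      have a1 : ∑ i, U k i * (lam * D k i + (U (k + 1) i - U k i)) =
          ⟪U k, x (k + 1) - x (k + 1 + 1)⟫ := by
        rw [← e4 k hk, ← sum_mul_eq]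
        rfl
      have a0 : ∑ i, (U (k + 1) i - U k i) ^ 2 = ‖U (k + 1) - U k‖ ^ 2 := by
        rw [← sum_sq_eq]
        rfl
      have a2 : w (k + 1 + 1) - x (k + 1 + 1) - (w (k + 1) - x (k + 1)) =
          U (k + 1) - U k := by
        simp only [hU]
        abel
      have a3 : w (k + 1) - x (k + 1) = U k + (ws - ys) := by
        simp only [hU]
        abel
      have a4 : ⟪ws - ys, x (k + 1) - ys⟫ = ⟪ws - ys, x (k + 1) - x (k + 1 + 1)⟫ +
          ⟪ws - ys, x (k + 1 + 1) - ys⟫ := by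
        rw [← inner_add_right]
        congr 1
        abel
      have a5 : x (k + 1 + 1) - x (k + 1) = - (x (k + 1) - x (k + 1 + 1)) := by abel
      rw [a2, a3, inner_add_left, a5, inner_neg_right, inner_neg_right] at h
      simp only [a1, a0, a4]
      linarith)
    (by
      intro k hk
      have h := hs.interp_scaled hL hγ hf hv' (gx (k + 1) (by omega) (by omega))
      have a1 : ∑ i, c i * (W k i - U k i - Y i) = ⟪c, x (k + 1) - y N⟫ := by
        have : x (k + 1) - y N = W k - U k - Y := by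
          rw [e1]
          simp only [hY]
          abel
        rw [this, ← sum_mul_eq]
        rfl
      have a0 : ∑ i, (U k i - c i) ^ 2 = ‖U k - c‖ ^ 2 := by
        rw [← sum_sq_eq]
        rfl
      have a2 : w (k + 1) - x (k + 1) - γ • v = U k - c := by
        simp only [hU, hc]
        abel
      have a3 : γ • v = c + (ws - ys) := by
        simp only [hc]
        abel
      have a4 : ⟪ws - ys, x (k + 1) - ys⟫ = ⟪ws - ys, x (k + 1) - y N⟫ +
          ⟪ws - ys, y N - ys⟫ := by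
        rw [← inner_add_right]
        congr 1
        abel
      rw [a2, a3, inner_add_left] at h
      simp only [a1, a0, a4]
      linarith)
    (by
      have h := hs.interp_scaled hL hγ hf hv' gs
      have a1 : ∑ i, c i * Y i = ⟪c, y N - ys⟫ := by
        rw [sum_mul_eq]
      have a2 : ws - ys - γ • v = - c := by
        simp only [hc]
        abel
      have a3 : γ • v = c + (ws - ys) := by
        simp only [hc]
        abel
      have a5 : ys - y N = - (y N - ys) := by abel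
      rw [a2, norm_neg, a3, a5, inner_neg_right, inner_add_left] at h
      simp only [a1, sum_sq_eq]
      linarith)
    (by
      intro k hk
      have h := (gy (k + 1) (by omega) (by omega)).scaled hγ hysG
      have a1 : ∑ i, (D k i - U k i) * (W k i - U k i - D k i) =
          ⟪D k - U k, y (k + 1) - ys⟫ := by
        rw [← e2, ← sum_mul_eq]
        rfl
      have a5 : ys - y (k + 1) = - (y (k + 1) - ys) := by abel
      rw [a5, inner_neg_right] at h
      simp only [a1]
      rw [e6, inner_add_left]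
      linarith)
    (by
      intro k hk
      have h := (gy (k + 1 + 1) (by omega) (by omega)).scaled hγ (hyG (k + 1) (by omega) (by omega))
      have a1 : ∑ i, (D (k + 1) i - U (k + 1) i) *
          (lam * D k i + (U (k + 1) i - U k i) + (D (k + 1) i - D k i)) =
          ⟪D (k + 1) - U (k + 1), y (k + 1) - y (k + 1 + 1)⟫ := by
        rw [← e5 k hk, ← sum_mul_eq]
        rfl
      have a4 : ⟪ws - ys, y (k + 1) - ys⟫ = ⟪ws - ys, y (k + 1) - y (k + 1 + 1)⟫ +
          ⟪ws - ys, y (k + 1 + 1) - ys⟫ := by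
        rw [← inner_add_right]
        congr 1
        abel
      simp only [a1, a4]
      rw [e6, inner_add_left]
      linarith)
    (by
      intro k hk
      have h := (gy (k + 1) (by omega) (by omega)).scaled hγ (hyG (k + 1 + 1) (by omega) (by omega))
      have a1 : ∑ i, (D k i - U k i) *
          (lam * D k i + (U (k + 1) i - U k i) + (D (k + 1) i - D k i)) =
          ⟪D k - U k, y (k + 1) - y (k + 1 + 1)⟫ := by
        rw [← e5 k hk, ← sum_mul_eq]
        rfl
      have a4 : ⟪ws - ys, y (k + 1) - ys⟫ = ⟪ws - ys, y (k + 1) - y (k + 1 + 1)⟫ +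
          ⟪ws - ys, y (k + 1 + 1) - ys⟫ := by
        rw [← inner_add_right]
        congr 1
        abel
      have a5 : y (k + 1 + 1) - y (k + 1) = - (y (k + 1) - y (k + 1 + 1)) := by abel
      rw [a5, inner_neg_right] at h
      simp only [a1, a4]
      rw [e6, inner_add_left]
      linarith)
  simp only [sum_sq_eq, hN1] at key
  have hden : (0 : ℝ) < 4 * (((N - 1 : ℕ) : ℝ) * lam + 1) := by positivity
  have k1 : γ * (f (y N) + g (y N) - (f ys + g ys)) ≤
      ‖w 1 - ws‖ ^ 2 / (4 * (((N - 1 : ℕ) : ℝ) * lam + 1)) := by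
    have : W 0 = w 1 - ws := rfl
    rw [this] at key
    linarith
  have k2 : f (y N) + g (y N) - (f ys + g ys) ≤
      ‖w 1 - ws‖ ^ 2 / (4 * (((N - 1 : ℕ) : ℝ) * lam + 1)) / γ := by
    rw [le_div_iff₀ hγ]
    linarith
  refine k2.trans_eq ?_
  field_simp

/-- `g : ℝⁿ → ℝ ∪ {+∞}` is proper and convex: it never takes the value `-∞`, it is somewhere finite
and its epigraph is convex. -/
def ProperConvex {n : ℕ} (g : EuclideanSpace ℝ (Fin n) → EReal) : Prop :=
  (∀ x, g x ≠ ⊥) ∧ (∃ x, g x ≠ ⊤) ∧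
    Convex ℝ {p : EuclideanSpace ℝ (Fin n) × ℝ | g p.1 ≤ (p.2 : EReal)}

/-- `x = prox_{γ g} (z)` for an extended-valued `g`: `x` minimises `g + ‖· - z‖² / (2γ)`. -/
def IsProxE {n : ℕ} (γ : ℝ) (g : EuclideanSpace ℝ (Fin n) → EReal)
    (z x : EuclideanSpace ℝ (Fin n)) : Prop :=
  ∀ y, g x + ((1 / (2 * γ) * ‖x - z‖ ^ 2 : ℝ) : EReal) ≤
    g y + ((1 / (2 * γ) * ‖y - z‖ ^ 2 : ℝ) : EReal)

lemma ProperConvex.coe_toReal {n : ℕ} {g : EuclideanSpace ℝ (Fin n) → EReal}
    (hg : ProperConvex g) {x : EuclideanSpace ℝ (Fin n)} (hx : g x ≠ ⊤) :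
    (((g x).toReal : ℝ) : EReal) = g x := EReal.coe_toReal hx (hg.1 x)

lemma ProperConvex.convexOn {n : ℕ} {g : EuclideanSpace ℝ (Fin n) → EReal}
    (hg : ProperConvex g) : ConvexOn ℝ {x | g x ≠ ⊤} (fun x => (g x).toReal) := by
  have key : ∀ x, g x ≠ ⊤ → ∀ y, g y ≠ ⊤ → ∀ a b : ℝ, 0 ≤ a → 0 ≤ b → a + b = 1 →
      g (a • x + b • y) ≤ ((a * (g x).toReal + b * (g y).toReal : ℝ) : EReal) := by
    intro x hx y hy a b ha hb hab
    have h1 : ((x, (g x).toReal) : EuclideanSpace ℝ (Fin n) × ℝ) ∈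
        {p : EuclideanSpace ℝ (Fin n) × ℝ | g p.1 ≤ (p.2 : EReal)} := by
      show g x ≤ (((g x).toReal : ℝ) : EReal)
      rw [hg.coe_toReal hx]
    have h2 : ((y, (g y).toReal) : EuclideanSpace ℝ (Fin n) × ℝ) ∈
        {p : EuclideanSpace ℝ (Fin n) × ℝ | g p.1 ≤ (p.2 : EReal)} := by
      show g y ≤ (((g y).toReal : ℝ) : EReal)
      rw [hg.coe_toReal hy]
    exact hg.2.2 h1 h2 ha hb hab
  constructor
  · intro x hx y hy a b ha hb hab
    exact ne_top_of_le_ne_top (EReal.coe_ne_top _) (key x hx y hy a b ha hb hab)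
  · intro x hx y hy a b ha hb hab
    have h1 := key x hx y hy a b ha hb hab
    have h2 : g (a • x + b • y) ≠ ⊤ := ne_top_of_le_ne_top (EReal.coe_ne_top _) h1
    rw [← hg.coe_toReal h2, EReal.coe_le_coe_iff] at h1
    simpa using h1

lemma IsProxE.ne_top {n : ℕ} {γ : ℝ} {g : EuclideanSpace ℝ (Fin n) → EReal}
    (hg : ProperConvex g) {z x : EuclideanSpace ℝ (Fin n)} (h : IsProxE γ g z x) : g x ≠ ⊤ := by
  obtain ⟨y, hy⟩ := hg.2.1
  intro hx
  have h1 := h y
  rw [hx, EReal.top_add_coe, ← hg.coe_toReal hy, ← EReal.coe_add, top_le_iff] at h1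
  exact EReal.coe_ne_top _ h1

lemma IsProxE.isProxOn {n : ℕ} {γ : ℝ} {g : EuclideanSpace ℝ (Fin n) → EReal}
    (hg : ProperConvex g) {z x : EuclideanSpace ℝ (Fin n)} (h : IsProxE γ g z x) :
    IsProxOn {x | g x ≠ ⊤} γ (fun x => (g x).toReal) z x := by
  refine ⟨h.ne_top hg, fun y hy => ?_⟩
  have h1 := h y
  rw [← hg.coe_toReal (h.ne_top hg), ← hg.coe_toReal hy, ← EReal.coe_add, ← EReal.coe_add,
    EReal.coe_le_coe_iff] at h1
  exact h1

/-- from a certificate to the statement, `g` extended-valued -/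
theorem drs_of_cert_ext {n N : ℕ} (hN : 1 ≤ N) {f : EuclideanSpace ℝ (Fin n) → ℝ}
    {g : EuclideanSpace ℝ (Fin n) → EReal}
    (hf : ConvexOn ℝ Set.univ f) (hg : ProperConvex g) {L γ lam iLs iLt : ℝ} (hL : 0 < L)
    (hs : IsSmooth L f) (hγ : 0 < γ) (hlam : 0 < lam)
    (hLs : iLs ≤ 1 / (γ * L)) (hLt : iLt ≤ 1 / (γ * L))
    (C : Nonempty (Cert (N - 1) lam iLs iLt))
    (w x y : ℕ → EuclideanSpace ℝ (Fin n))
    (hx : ∀ k, 1 ≤ k → k ≤ N → IsProx γ f (w k) (x k))
    (hy : ∀ k, 1 ≤ k → k ≤ N → IsProxE γ g ((2 : ℝ) • x k - w k) (y k))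
    (hw : ∀ k, 1 ≤ k → k < N → w (k + 1) = w k + lam • (y k - x k))
    (ws xs ys : EuclideanSpace ℝ (Fin n))
    (hxs : IsProx γ f ws xs) (hys : IsProxE γ g ((2 : ℝ) • xs - ws) ys)
    (hws : ws = ws + lam • (ys - xs)) :
    (f (y N) : EReal) + g (y N) ≤
      f xs + g xs + ((‖w 1 - ws‖ ^ 2 / (4 * γ * (((N : ℝ) - 1) * lam + 1)) : ℝ) : EReal) := by
  have hyx : ys = xs := by
    have h1 : lam • (ys - xs) = 0 := by
      have := hws
      rwa [eq_comm, add_eq_left] at this
    have h2 : ys - xs = 0 := by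
      rcases smul_eq_zero.mp h1 with h | h
      · exact absurd h hlam.ne'
      · exact h
    exact sub_eq_zero.mp h2
  have h := drs_of_cert_on hN hf hg.convexOn hL hs hγ hlam hLs hLt C w x y hx
    (fun k h1 h2 => (hy k h1 h2).isProxOn hg) hw ws xs ys hxs (hys.isProxOn hg) hws
  have h1 : g xs ≠ ⊤ := by
    rw [← hyx]
    exact hys.ne_top hg
  have h2 : g (y N) ≠ ⊤ := (hy N hN le_rfl).ne_top hg
  rw [← hg.coe_toReal h1, ← hg.coe_toReal h2, ← EReal.coe_add, ← EReal.coe_add, ← EReal.coe_add,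
    EReal.coe_le_coe_iff]
  have e : ((N - 1 : ℕ) : ℝ) = (N : ℝ) - 1 := by
    rw [Nat.cast_sub hN, Nat.cast_one]
  rw [e] at h
  linarith

end Pool.Agent.helper73.DRS
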