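import Mathlib
import Pool.Agent.helper73.DRS.Defs

/-! Convex analysis on `EuclideanSpace ℝ (Fin n)` (module AN1 of MP_675b5c_an). -/

namespace Pool.Agent.helper73.DRS

open scoped RealInnerProductSpace

/-- a minimiser of `h + ‖· - z‖²/(2γ)` satisfies the optimality condition -/
theorem IsProx.isSubgrad {n : ℕ} {γ : ℝ} (hγ : 0 < γ) {h : EuclideanSpace ℝ (Fin n) → ℝ}
    (hh : ConvexOn ℝ Set.univ h) {z x : EuclideanSpace ℝ (Fin n)} (hx : IsProx γ h z x) :
    IsSubgrad h x ((1 / γ) • (z - x)) := by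
  intro y
  rw [real_inner_smul_left]
  -- the inequality with an error `t * K`
  have key : ∀ t : ℝ, 0 < t → t ≤ 1 →
      h x + 1 / γ * ⟪z - x, y - x⟫ ≤ h y + t * (1 / (2 * γ) * ‖y - x‖ ^ 2) := by
    intro t ht ht1
    have h1 := hx (x + t • (y - x))
    have h2 : h (x + t • (y - x)) ≤ (1 - t) * h x + t * h y := by
      have := hh.2 (Set.mem_univ x) (Set.mem_univ y) (by linarith : (0 : ℝ) ≤ 1 - t) ht.le
        (by ring)
      have e : (1 - t) • x + t • y = x + t • (y - x) := by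
        rw [sub_smul, one_smul, smul_sub]
        abel
      rw [e] at this
      simpa [smul_eq_mul] using this
    have h3 : ‖x + t • (y - x) - z‖ ^ 2 =
        ‖x - z‖ ^ 2 + 2 * t * ⟪x - z, y - x⟫ + t ^ 2 * ‖y - x‖ ^ 2 := by
      have e : x + t • (y - x) - z = (x - z) + t • (y - x) := by abel
      rw [e, norm_add_sq_real, real_inner_smul_right, norm_smul, mul_pow, Real.norm_eq_abs,
        sq_abs]
      ring
    rw [h3] at h1
    have h4 : ⟪x - z, y - x⟫ = - ⟪z - x, y - x⟫ := by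
      rw [← neg_sub z x, inner_neg_left]
    rw [h4] at h1
    have h5 : t * (h x + 1 / γ * ⟪z - x, y - x⟫) ≤
        t * (h y + t * (1 / (2 * γ) * ‖y - x‖ ^ 2)) := by
      have e1 : 1 / (2 * γ) * (‖x - z‖ ^ 2 + 2 * t * -⟪z - x, y - x⟫ + t ^ 2 * ‖y - x‖ ^ 2) =
          1 / (2 * γ) * ‖x - z‖ ^ 2 - t * (1 / γ * ⟪z - x, y - x⟫) +
            t * (t * (1 / (2 * γ) * ‖y - x‖ ^ 2)) := by
        field_simp
        ring
      rw [e1] at h1
      nlinarith
    exact le_of_mul_le_mul_left h5 ht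
  by_contra hcon
  push Not at hcon
  set K := 1 / (2 * γ) * ‖y - x‖ ^ 2 with hK
  have hK0 : 0 ≤ K := by positivity
  set δ := h x + 1 / γ * ⟪z - x, y - x⟫ - h y with hδ
  have hδ0 : 0 < δ := by linarith
  have ht := key (min 1 (δ / (2 * (K + 1)))) (lt_min one_pos (by positivity)) (min_le_left _ _)
  have h6 : min 1 (δ / (2 * (K + 1))) * K ≤ δ / 2 := by
    calc min 1 (δ / (2 * (K + 1))) * K ≤ δ / (2 * (K + 1)) * K :=
          mul_le_mul_of_nonneg_right (min_le_right _ _) hK0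
      _ ≤ δ / (2 * (K + 1)) * (K + 1) := by
          apply mul_le_mul_of_nonneg_left (by linarith)
          positivity
      _ = δ / 2 := by
          field_simp
  linarith

/-- real-valued convex functions have subgradients everywhere -/
theorem exists_isSubgrad {n : ℕ} {f : EuclideanSpace ℝ (Fin n) → ℝ} (hf : ConvexOn ℝ Set.univ f)
    (x : EuclideanSpace ℝ (Fin n)) : ∃ u, IsSubgrad f x u := by
  have hcont : Continuous f := by
    rw [← continuousOn_univ]
    exact hf.continuousOn isOpen_univ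
  set s : Set (EuclideanSpace ℝ (Fin n) × ℝ) := {p | f p.1 < p.2} with hs
  have hopen : IsOpen s := isOpen_lt (hcont.comp continuous_fst) continuous_snd
  have hconv : Convex ℝ s := by
    have := hf.convex_strict_epigraph
    simpa [hs] using this
  have hnot : (x, f x) ∉ s := by simp [hs]
  obtain ⟨φ, hφ⟩ := geometric_hahn_banach_open_point hconv hopen hnot
  set c := φ (0, 1) with hc
  set φ₁ : StrongDual ℝ (EuclideanSpace ℝ (Fin n)) :=
    φ.comp (ContinuousLinearMap.inl ℝ (EuclideanSpace ℝ (Fin n)) ℝ) with hφ₁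
  have hsplit : ∀ (y : EuclideanSpace ℝ (Fin n)) (r : ℝ), φ (y, r) = φ₁ y + c * r := by
    intro y r
    have e : ((y, r) : EuclideanSpace ℝ (Fin n) × ℝ) = (y, 0) + r • (0, 1) := by
      simp
    rw [e, map_add, map_smul, hφ₁, hc]
    simp [mul_comm]
  have hc0 : c < 0 := by
    have h1 := hφ (x, f x + 1) (by simp [hs])
    rw [hsplit, hsplit] at h1
    linarith
  refine ⟨(InnerProductSpace.toDual ℝ (EuclideanSpace ℝ (Fin n))).symm ((-c)⁻¹ • φ₁), ?_⟩
  intro y
  rw [InnerProductSpace.toDual_symm_apply]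
  have hle : φ₁ y + c * f y ≤ φ₁ x + c * f x := by
    by_contra hcon
    push Not at hcon
    set δ := φ₁ y + c * f y - (φ₁ x + c * f x) with hδ
    have hδ0 : 0 < δ := by linarith
    have h1 := hφ (y, f y + δ / (-c)) (by
      simp only [hs, Set.mem_setOf_eq]
      have : 0 < δ / (-c) := div_pos hδ0 (by linarith)
      linarith)
    rw [hsplit, hsplit] at h1
    have e : c * (f y + δ / (-c)) = c * f y - δ := by
      have : c ≠ 0 := hc0.ne
      field_simp
      ring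
    rw [e] at h1
    linarith
  have e : (((-c)⁻¹ • φ₁) : StrongDual ℝ (EuclideanSpace ℝ (Fin n))) (y - x) =
      (-c)⁻¹ * (φ₁ y - φ₁ x) := by
    rw [ContinuousLinearMap.smul_apply, map_sub, smul_eq_mul]
  rw [e]
  have hc' : 0 < -c := by linarith
  have h2 : (-c)⁻¹ * (φ₁ y - φ₁ x) ≤ f y - f x := by
    rw [inv_mul_le_iff₀ hc']
    nlinarith
  linarith

/-- subgradients are Lipschitz -/
lemma IsSmooth.lip {n : ℕ} {L : ℝ} (hL : 0 < L) {f : EuclideanSpace ℝ (Fin n) → ℝ}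
    (hs : IsSmooth L f) {x y u v : EuclideanSpace ℝ (Fin n)}
    (hu : IsSubgrad f x u) (hv : IsSubgrad f y v) : ‖u - v‖ ≤ L * ‖x - y‖ := by
  have h1 := hs x y u v hu hv
  have h2 : ⟪u - v, x - y⟫ ≤ ‖u - v‖ * ‖x - y‖ := real_inner_le_norm _ _
  by_cases h0 : ‖u - v‖ = 0
  · rw [h0]
    positivity
  have h3 : 0 < ‖u - v‖ := lt_of_le_of_ne (norm_nonneg _) (Ne.symm h0)
  have h4 : 1 / L * ‖u - v‖ ^ 2 ≤ ‖u - v‖ * ‖x - y‖ := h1.trans h2
  have h5 : ‖u - v‖ * (1 / L * ‖u - v‖) ≤ ‖u - v‖ * ‖x - y‖ := by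
    calc ‖u - v‖ * (1 / L * ‖u - v‖) = 1 / L * ‖u - v‖ ^ 2 := by ring
      _ ≤ _ := h4
  have h6 := le_of_mul_le_mul_left h5 h3
  rw [one_div, inv_mul_le_iff₀ hL] at h6
  exact h6

/-- descent lemma with a worse constant -/
lemma IsSmooth.descent_aux {n : ℕ} {L : ℝ} (hL : 0 < L) {f : EuclideanSpace ℝ (Fin n) → ℝ}
    (hf : ConvexOn ℝ Set.univ f) (hs : IsSmooth L f) (m : ℕ) :
    ∀ a b u : EuclideanSpace ℝ (Fin n), IsSubgrad f a u →
      f b ≤ f a + ⟪u, b - a⟫ + (L / 2 + L / 2 ^ (m + 1)) * ‖b - a‖ ^ 2 := by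
  induction m with
  | zero =>
    intro a b u hu
    obtain ⟨v, hv⟩ := exists_isSubgrad hf b
    have h1 := hv a
    have h2 : ⟪v, a - b⟫ = - ⟪u, b - a⟫ - ⟪v - u, b - a⟫ := by
      rw [← neg_sub b a, inner_neg_right, inner_sub_left]
      ring
    have h3 : ⟪v - u, b - a⟫ ≤ ‖v - u‖ * ‖b - a‖ := real_inner_le_norm _ _
    have h4 := hs.lip hL hv hu
    have h5 : ‖v - u‖ * ‖b - a‖ ≤ L * ‖b - a‖ * ‖b - a‖ :=
      mul_le_mul_of_nonneg_right h4 (norm_nonneg _)
    rw [zero_add, pow_one]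
    nlinarith
  | succ m ih =>
    intro a b u hu
    set c := (1 / 2 : ℝ) • (a + b) with hc
    obtain ⟨w, hw⟩ := exists_isSubgrad hf c
    have h1 := ih a c u hu
    have h2 := ih c b w hw
    have e1 : c - a = (1 / 2 : ℝ) • (b - a) := by
      rw [hc, smul_add, smul_sub]
      have : a = (1 / 2 : ℝ) • a + (1 / 2 : ℝ) • a := by
        rw [← add_smul]
        norm_num
      nth_rewrite 2 [this]
      abel
    have e2 : b - c = (1 / 2 : ℝ) • (b - a) := by
      rw [hc, smul_add, smul_sub]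
      have : b = (1 / 2 : ℝ) • b + (1 / 2 : ℝ) • b := by
        rw [← add_smul]
        norm_num
      nth_rewrite 1 [this]
      abel
    have n1 : ‖(1 / 2 : ℝ) • (b - a)‖ ^ 2 = 1 / 4 * ‖b - a‖ ^ 2 := by
      rw [norm_smul, mul_pow]
      norm_num
    rw [e1, n1, real_inner_smul_right] at h1
    rw [e2, n1, real_inner_smul_right] at h2
    have h3 : ⟪w - u, b - a⟫ ≤ ‖w - u‖ * ‖b - a‖ := real_inner_le_norm _ _
    have h4 := hs.lip hL hw hu
    have h5 : ‖w - u‖ * ‖b - a‖ ≤ L * ‖c - a‖ * ‖b - a‖ :=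
      mul_le_mul_of_nonneg_right h4 (norm_nonneg _)
    have h6 : ‖c - a‖ = 1 / 2 * ‖b - a‖ := by
      rw [e1, norm_smul]
      norm_num
    rw [h6] at h5
    rw [inner_sub_left] at h3
    have e3 : L / 2 ^ (m + 1 + 1) = L / 2 ^ (m + 1) / 2 := by
      rw [pow_succ 2 (m + 1)]
      field_simp
    rw [e3]
    nlinarith

/-- descent lemma -/
lemma IsSmooth.descent {n : ℕ} {L : ℝ} (hL : 0 < L) {f : EuclideanSpace ℝ (Fin n) → ℝ}
    (hf : ConvexOn ℝ Set.univ f) (hs : IsSmooth L f) {a b u : EuclideanSpace ℝ (Fin n)}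
    (hu : IsSubgrad f a u) : f b ≤ f a + ⟪u, b - a⟫ + L / 2 * ‖b - a‖ ^ 2 := by
  have h1 : Filter.Tendsto (fun m : ℕ => f a + ⟪u, b - a⟫ +
      (L / 2 + L / 2 ^ (m + 1)) * ‖b - a‖ ^ 2) Filter.atTop
      (nhds (f a + ⟪u, b - a⟫ + (L / 2 + 0) * ‖b - a‖ ^ 2)) := by
    apply Filter.Tendsto.add tendsto_const_nhds
    apply Filter.Tendsto.mul_const
    apply Filter.Tendsto.add tendsto_const_nhds
    have h2 : Filter.Tendsto (fun m : ℕ => L * ((1 / 2 : ℝ) ^ (m + 1))) Filter.atTop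
        (nhds (L * 0)) := by
      apply Filter.Tendsto.const_mul
      have h3 := tendsto_pow_atTop_nhds_zero_of_lt_one (by norm_num : (0 : ℝ) ≤ 1 / 2)
        (by norm_num)
      exact h3.comp (Filter.tendsto_add_atTop_nat 1)
    rw [mul_zero] at h2
    refine h2.congr (fun m => ?_)
    rw [one_div, inv_pow]
    rfl
  rw [add_zero] at h1
  exact ge_of_tendsto' h1 (fun m => hs.descent_aux hL hf m a b u hu)

/-- smooth convex interpolation inequality -/
theorem IsSmooth.interp {n : ℕ} {L : ℝ} (hL : 0 < L) {f : EuclideanSpace ℝ (Fin n) → ℝ}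
    (hf : ConvexOn ℝ Set.univ f) (hs : IsSmooth L f) {x y u v : EuclideanSpace ℝ (Fin n)}
    (hu : IsSubgrad f x u) (hv : IsSubgrad f y v) :
    f x + ⟪u, y - x⟫ + 1 / (2 * L) * ‖v - u‖ ^ 2 ≤ f y := by
  set z := y - (1 / L) • (v - u) with hz
  have h1 := hu z
  have h2 := hs.descent hL hf (b := z) hv
  have e1 : z - x = (y - x) - (1 / L) • (v - u) := by
    rw [hz]
    abel
  have e2 : z - y = - ((1 / L) • (v - u)) := by
    rw [hz]
    abel
  rw [e1, inner_sub_right, real_inner_smul_right] at h1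
  rw [e2, inner_neg_right, real_inner_smul_right, norm_neg, norm_smul, mul_pow,
    Real.norm_eq_abs, sq_abs] at h2
  have h3 : ⟪v, v - u⟫ - ⟪u, v - u⟫ = ‖v - u‖ ^ 2 := by
    rw [← inner_sub_left, real_inner_self_eq_norm_sq]
  have e3 : L / 2 * ((1 / L) ^ 2 * ‖v - u‖ ^ 2) = 1 / (2 * L) * ‖v - u‖ ^ 2 := by
    field_simp
  rw [e3] at h2
  have e4 : 1 / L * ⟪v, v - u⟫ - 1 / L * ⟪u, v - u⟫ = 2 * (1 / (2 * L) * ‖v - u‖ ^ 2) := by
    rw [← h3]
    field_simp
  linarith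

end Pool.Agent.helper73.DRS
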