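import Pool.Agent.helper23.DRS.AN1
import Pool.Agent.helper73.DRS.Core2

/-! From a certificate to the statement (module AN2 of MP_675b5c_an). -/

namespace Pool.Agent.helper73.DRS

open scoped RealInnerProductSpace

/-- scaled interpolation inequality -/
lemma IsSmooth.interp_scaled {n : ℕ} {L γ : ℝ} (hL : 0 < L) (hγ : 0 < γ)
    {f : EuclideanSpace ℝ (Fin n) → ℝ}
    (hf : ConvexOn ℝ Set.univ f) (hs : IsSmooth L f) {x y u v : EuclideanSpace ℝ (Fin n)}
    (hu : IsSubgrad f x ((1 / γ) • u)) (hv : IsSubgrad f y ((1 / γ) • v)) :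
    γ * f x + ⟪u, y - x⟫ + 1 / (γ * L) / 2 * ‖v - u‖ ^ 2 ≤ γ * f y := by
  have h := hs.interp hL hf hu hv
  rw [real_inner_smul_left, ← smul_sub, norm_smul, mul_pow, Real.norm_eq_abs, sq_abs] at h
  have h2 := mul_le_mul_of_nonneg_left h hγ.le
  have e : γ * (f x + 1 / γ * ⟪u, y - x⟫ + 1 / (2 * L) * ((1 / γ) ^ 2 * ‖v - u‖ ^ 2)) =
      γ * f x + ⟪u, y - x⟫ + 1 / (γ * L) / 2 * ‖v - u‖ ^ 2 := by
    field_simp
  rw [e] at h2
  exact h2

/-- scaled subgradient inequality -/
lemma IsSubgrad.scaled {n : ℕ} {γ : ℝ} (hγ : 0 < γ) {g : EuclideanSpace ℝ (Fin n) → ℝ}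
    {x u : EuclideanSpace ℝ (Fin n)} (hu : IsSubgrad g x ((1 / γ) • u))
    (y : EuclideanSpace ℝ (Fin n)) : γ * g x + ⟪u, y - x⟫ ≤ γ * g y := by
  have h := hu y
  rw [real_inner_smul_left] at h
  have h2 := mul_le_mul_of_nonneg_left h hγ.le
  have e : γ * (g x + 1 / γ * ⟪u, y - x⟫) = γ * g x + ⟪u, y - x⟫ := by
    field_simp
  rw [e] at h2
  exact h2

lemma sum_mul_eq {n : ℕ} (a b : EuclideanSpace ℝ (Fin n)) : ∑ i, a i * b i = ⟪a, b⟫ := by
  rw [PiLp.inner_apply]
  refine Finset.sum_congr rfl (fun i _ => ?_)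
  simp [mul_comm]

lemma sum_sq_eq {n : ℕ} (a : EuclideanSpace ℝ (Fin n)) : ∑ i, a i ^ 2 = ‖a‖ ^ 2 := by
  rw [← real_inner_self_eq_norm_sq, ← sum_mul_eq]
  refine Finset.sum_congr rfl (fun i _ => ?_)
  ring

/-- from a certificate to the statement -/
theorem drs_of_cert {n N : ℕ} (hN : 1 ≤ N) {f g : EuclideanSpace ℝ (Fin n) → ℝ}
    (hf : ConvexOn ℝ Set.univ f) (hg : ConvexOn ℝ Set.univ g) {L γ lam iLs iLt : ℝ} (hL : 0 < L)
    (hs : IsSmooth L f) (hγ : 0 < γ) (hlam : 0 < lam)
    (hLs : iLs ≤ 1 / (γ * L)) (hLt : iLt ≤ 1 / (γ * L))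
    (C : Nonempty (Cert (N - 1) lam iLs iLt))
    (w x y : ℕ → EuclideanSpace ℝ (Fin n))
    (hx : ∀ k, 1 ≤ k → k ≤ N → IsProx γ f (w k) (x k))
    (hy : ∀ k, 1 ≤ k → k ≤ N → IsProx γ g ((2 : ℝ) • x k - w k) (y k))
    (hw : ∀ k, 1 ≤ k → k < N → w (k + 1) = w k + lam • (y k - x k))
    (ws xs ys : EuclideanSpace ℝ (Fin n))
    (hxs : IsProx γ f ws xs) (hys : IsProx γ g ((2 : ℝ) • xs - ws) ys)
    (hws : ws = ws + lam • (ys - xs)) :
    f (y N) + g (y N) - (f xs + g xs) ≤ ‖w 1 - ws‖ ^ 2 / (4 * γ * ((N - 1 : ℕ) * lam + 1)) := by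
  obtain ⟨C⟩ := C
  -- the fixed point
  have hyx : ys = xs := by
    have h1 : lam • (ys - xs) = 0 := by
      have := hws
      rwa [eq_comm, add_eq_left] at this
    have h2 : ys - xs = 0 := by
      rcases smul_eq_zero.mp h1 with h | h
      · exact absurd h hlam.ne'
      · exact h
    exact sub_eq_zero.mp h2
  subst hyx
  -- subgradients
  have gx : ∀ k, 1 ≤ k → k ≤ N → IsSubgrad f (x k) ((1 / γ) • (w k - x k)) :=
    fun k h1 h2 => (hx k h1 h2).isSubgrad hγ hf
  have gy : ∀ k, 1 ≤ k → k ≤ N → IsSubgrad g (y k) ((1 / γ) • ((2 : ℝ) • x k - w k - y k)) :=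
    fun k h1 h2 => (hy k h1 h2).isSubgrad hγ hg
  have gs : IsSubgrad f ys ((1 / γ) • (ws - ys)) := hxs.isSubgrad hγ hf
  have gs' : IsSubgrad g ys ((1 / γ) • ((2 : ℝ) • ys - ws - ys)) := hys.isSubgrad hγ hg
  obtain ⟨v, hv⟩ := exists_isSubgrad hf (y N)
  have hv' : IsSubgrad f (y N) ((1 / γ) • (γ • v)) := by
    rwa [smul_smul, one_div, inv_mul_cancel₀ hγ.ne', one_smul]
  set W : ℕ → EuclideanSpace ℝ (Fin n) := fun j => w (j + 1) - ws with hW
  set U : ℕ → EuclideanSpace ℝ (Fin n) := fun j => (w (j + 1) - x (j + 1)) - (ws - ys) with hU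
  set D : ℕ → EuclideanSpace ℝ (Fin n) := fun j => x (j + 1) - y (j + 1) with hD
  set c : EuclideanSpace ℝ (Fin n) := γ • v - (ws - ys) with hc
  set Y : EuclideanSpace ℝ (Fin n) := y N - ys with hY
  have e1 : ∀ j, W j - U j = x (j + 1) - ys := by
    intro j
    simp only [hW, hU]
    abel
  have e2 : ∀ j, W j - U j - D j = y (j + 1) - ys := by
    intro j
    rw [e1]
    simp only [hD]
    abel
  have e3 : ∀ j, j < N - 1 → W (j + 1) = W j - lam • D j := by
    intro j hj
    simp only [hW, hD]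
    rw [hw (j + 1) (by omega) (by omega), smul_sub, smul_sub]
    abel
  have e4 : ∀ j, j < N - 1 → lam • D j + (U (j + 1) - U j) = x (j + 1) - x (j + 1 + 1) := by
    intro j hj
    simp only [hU, hD]
    rw [hw (j + 1) (by omega) (by omega), smul_sub, smul_sub]
    abel
  have e5 : ∀ j, j < N - 1 → lam • D j + (U (j + 1) - U j) + (D (j + 1) - D j) =
      y (j + 1) - y (j + 1 + 1) := by
    intro j hj
    rw [e4 j hj]
    simp only [hD]
    abel
  have e6 : ∀ j, D j - U j = ((2 : ℝ) • x (j + 1) - w (j + 1) - y (j + 1)) + (ws - ys) := by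
    intro j
    simp only [hD, hU, two_smul]
    abel
  have hN1 : N - 1 + 1 = N := by omega
  have key := C.bound hlam hLs hLt (fun j i => W j i) (fun j i => U j i) (fun j i => D j i)
    (fun i => c i) (fun i => Y i)
    (fun j => γ * (f (x (j + 1)) - f ys) - ⟪ws - ys, x (j + 1) - ys⟫)
    (fun j => γ * (g (y (j + 1)) - g ys) + ⟪ws - ys, y (j + 1) - ys⟫)
    (γ * (f (y N) - f ys) - ⟪ws - ys, y N - ys⟫)
    (by
      intro k hk i
      have := congrArg (fun z : EuclideanSpace ℝ (Fin n) => z i) (e3 k hk)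
      simpa using this)
    (by
      intro i
      have h := e2 (N - 1)
      rw [hN1] at h
      have := congrArg (fun z : EuclideanSpace ℝ (Fin n) => z i) h
      simp only [PiLp.sub_apply] at this
      simp only [hY, PiLp.sub_apply]
      linarith)
    (by
      intro k hk
      have h := hs.interp_scaled hL hγ hf (gx (k + 1) (by omega) (by omega)) gs
      have a1 : ∑ i, U k i * (W k i - U k i) = ⟪U k, x (k + 1) - ys⟫ := by
        rw [← e1, ← sum_mul_eq]
        rfl
      have a2 : ws - ys - (w (k + 1) - x (k + 1)) = - U k := by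
        simp only [hU]
        abel
      have a3 : ⟪w (k + 1) - x (k + 1), ys - x (k + 1)⟫ =
          - ⟪U k, x (k + 1) - ys⟫ - ⟪ws - ys, x (k + 1) - ys⟫ := by
        rw [← neg_sub (x (k + 1)) ys, inner_neg_right]
        have : w (k + 1) - x (k + 1) = U k + (ws - ys) := by
          simp only [hU]
          abel
        rw [this, inner_add_left]
        ring
      rw [a2, norm_neg, a3] at h
      simp only [a1, sum_sq_eq]
      linarith)
    (by
      intro k hk
      have h := hs.interp_scaled hL hγ hf gs (gx (k + 1) (by omega) (by omega))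
      simp only [sum_sq_eq]
      linarith)
    (by
      intro k hk
      have h := hs.interp_scaled hL hγ hf (gx (k + 1 + 1) (by omega) (by omega))
        (gx (k + 1) (by omega) (by omega))
      have a1 : ∑ i, U (k + 1) i * (lam * D k i + (U (k + 1) i - U k i)) =
          ⟪U (k + 1), x (k + 1) - x (k + 1 + 1)⟫ := by
        rw [← e4 k hk, ← sum_mul_eq]
        rfl
      have a0 : ∑ i, (U (k + 1) i - U k i) ^ 2 = ‖U (k + 1) - U k‖ ^ 2 := by
        rw [← sum_sq_eq]
        rfl
      have a2 : w (k + 1) - x (k + 1) - (w (k + 1 + 1) - x (k + 1 + 1)) =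
          - (U (k + 1) - U k) := by
        simp only [hU]
        abel
      have a3 : w (k + 1 + 1) - x (k + 1 + 1) = U (k + 1) + (ws - ys) := by
        simp only [hU]
        abel
      have a4 : ⟪ws - ys, x (k + 1) - ys⟫ = ⟪ws - ys, x (k + 1) - x (k + 1 + 1)⟫ +
          ⟪ws - ys, x (k + 1 + 1) - ys⟫ := by
        rw [← inner_add_right]
        congr 1
        abel
      rw [a2, norm_neg, a3, inner_add_left] at h
      simp only [a1, a0, a4]
      linarith)
    (by
      intro k hk
      have h := hs.interp_scaled hL hγ hf (gx (k + 1) (by omega) (by omega))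
        (gx (k + 1 + 1) (by omega) (by omega))
      have a1 : ∑ i, U k i * (lam * D k i + (U (k + 1) i - U k i)) =
          ⟪U k, x (k + 1) - x (k + 1 + 1)⟫ := by
        rw [← e4 k hk, ← sum_mul_eq]
        rfl
      have a0 : ∑ i, (U (k + 1) i - U k i) ^ 2 = ‖U (k + 1) - U k‖ ^ 2 := by
        rw [← sum_sq_eq]
        rfl
      have a2 : w (k + 1 + 1) - x (k + 1 + 1) - (w (k + 1) - x (k + 1)) =
          U (k + 1) - U k := by
        simp only [hU]
        abel
      have a3 : w (k + 1) - x (k + 1) = U k + (ws - ys) := by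
        simp only [hU]
        abel
      have a4 : ⟪ws - ys, x (k + 1) - ys⟫ = ⟪ws - ys, x (k + 1) - x (k + 1 + 1)⟫ +
          ⟪ws - ys, x (k + 1 + 1) - ys⟫ := by
        rw [← inner_add_right]
        congr 1
        abel
      have a5 : x (k + 1 + 1) - x (k + 1) = - (x (k + 1) - x (k + 1 + 1)) := by abel
      rw [a2, a3, inner_add_left, a5, inner_neg_right, inner_neg_right] at h
      simp only [a1, a0, a4]
      linarith)
    (by
      intro k hk
      have h := hs.interp_scaled hL hγ hf hv' (gx (k + 1) (by omega) (by omega))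
      have a1 : ∑ i, c i * (W k i - U k i - Y i) = ⟪c, x (k + 1) - y N⟫ := by
        have : x (k + 1) - y N = W k - U k - Y := by
          rw [e1]
          simp only [hY]
          abel
        rw [this, ← sum_mul_eq]
        rfl
      have a0 : ∑ i, (U k i - c i) ^ 2 = ‖U k - c‖ ^ 2 := by
        rw [← sum_sq_eq]
        rfl
      have a2 : w (k + 1) - x (k + 1) - γ • v = U k - c := by
        simp only [hU, hc]
        abel
      have a3 : γ • v = c + (ws - ys) := by
        simp only [hc]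
        abel
      have a4 : ⟪ws - ys, x (k + 1) - ys⟫ = ⟪ws - ys, x (k + 1) - y N⟫ +
          ⟪ws - ys, y N - ys⟫ := by
        rw [← inner_add_right]
        congr 1
        abel
      rw [a2, a3, inner_add_left] at h
      simp only [a1, a0, a4]
      linarith)
    (by
      have h := hs.interp_scaled hL hγ hf hv' gs
      have a1 : ∑ i, c i * Y i = ⟪c, y N - ys⟫ := by
        rw [sum_mul_eq]
      have a2 : ws - ys - γ • v = - c := by
        simp only [hc]
        abel
      have a3 : γ • v = c + (ws - ys) := by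
        simp only [hc]
        abel
      have a5 : ys - y N = - (y N - ys) := by abel
      rw [a2, norm_neg, a3, a5, inner_neg_right, inner_add_left] at h
      simp only [a1, sum_sq_eq]
      linarith)
    (by
      intro k hk
      have h := (gy (k + 1) (by omega) (by omega)).scaled hγ ys
      have a1 : ∑ i, (D k i - U k i) * (W k i - U k i - D k i) =
          ⟪D k - U k, y (k + 1) - ys⟫ := by
        rw [← e2, ← sum_mul_eq]
        rfl
      have a5 : ys - y (k + 1) = - (y (k + 1) - ys) := by abel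
      rw [a5, inner_neg_right] at h
      simp only [a1]
      rw [e6, inner_add_left]
      linarith)
    (by
      intro k hk
      have h := (gy (k + 1 + 1) (by omega) (by omega)).scaled hγ (y (k + 1))
      have a1 : ∑ i, (D (k + 1) i - U (k + 1) i) *
          (lam * D k i + (U (k + 1) i - U k i) + (D (k + 1) i - D k i)) =
          ⟪D (k + 1) - U (k + 1), y (k + 1) - y (k + 1 + 1)⟫ := by
        rw [← e5 k hk, ← sum_mul_eq]
        rfl
      have a4 : ⟪ws - ys, y (k + 1) - ys⟫ = ⟪ws - ys, y (k + 1) - y (k + 1 + 1)⟫ +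
          ⟪ws - ys, y (k + 1 + 1) - ys⟫ := by
        rw [← inner_add_right]
        congr 1
        abel
      simp only [a1, a4]
      rw [e6, inner_add_left]
      linarith)
    (by
      intro k hk
      have h := (gy (k + 1) (by omega) (by omega)).scaled hγ (y (k + 1 + 1))
      have a1 : ∑ i, (D k i - U k i) *
          (lam * D k i + (U (k + 1) i - U k i) + (D (k + 1) i - D k i)) =
          ⟪D k - U k, y (k + 1) - y (k + 1 + 1)⟫ := by
        rw [← e5 k hk, ← sum_mul_eq]
        rfl
      have a4 : ⟪ws - ys, y (k + 1) - ys⟫ = ⟪ws - ys, y (k + 1) - y (k + 1 + 1)⟫ +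
          ⟪ws - ys, y (k + 1 + 1) - ys⟫ := by
        rw [← inner_add_right]
        congr 1
        abel
      have a5 : y (k + 1 + 1) - y (k + 1) = - (y (k + 1) - y (k + 1 + 1)) := by abel
      rw [a5, inner_neg_right] at h
      simp only [a1, a4]
      rw [e6, inner_add_left]
      linarith)
  simp only [sum_sq_eq, hN1] at key
  have hden : (0 : ℝ) < 4 * (((N - 1 : ℕ) : ℝ) * lam + 1) := by positivity
  have k1 : γ * (f (y N) + g (y N) - (f ys + g ys)) ≤
      ‖w 1 - ws‖ ^ 2 / (4 * (((N - 1 : ℕ) : ℝ) * lam + 1)) := by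
    have : W 0 = w 1 - ws := rfl
    rw [this] at key
    linarith
  have k2 : f (y N) + g (y N) - (f ys + g ys) ≤
      ‖w 1 - ws‖ ^ 2 / (4 * (((N - 1 : ℕ) : ℝ) * lam + 1)) / γ := by
    rw [le_div_iff₀ hγ]
    linarith
  refine k2.trans_eq ?_
  field_simp

end Pool.Agent.helper73.DRS
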